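import Mathlib
import Pool.Agent.H33.GrothDefs
import Pool.Agent.H33.GrothProd

/-!
The product of a weakly Grothendieck space with a compact space is weakly Grothendieck.
-/

namespace Pool.Agent.Results.MP_8a2df8_gt.WeakCompactProduct

open Pool.Agent.H33.GrothDefs

theorem result (X K : Type*) [TopologicalSpace X] [TopologicalSpace K] [CompactSpace K]
    (hX : IsWeaklyGrothendieck X) : IsWeaklyGrothendieck (X × K) := by
  rw [Pool.Agent.H33.Groth.wg_iff] at hX ⊢
  exact Pool.Agent.H33.GrothProd.ga_prod hX

end Pool.Agent.Results.MP_8a2df8_gt.WeakCompactProduct
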